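import Pool.Agent.Q197.TangLines
import Pool.Agent.Q197.OnlyTwo

/-!
# Top views of two isotropic circles through each point: a counterexample

We disprove the statement Q1 of MP_c33e78_gt. The surface is
`M = {(u (2 + cos θ), u sin θ, u ^ 2 + u (2 + cos θ)) : 0 < u, |θ| < π / 2}`, a piece of
`(x ^ 2 + y ^ 2 + 3 w) ^ 2 = 16 x ^ 2 w` with `w = z - x`. The isotropic circles through the point
with parameters `(u, θ)` are the parabola `s ↦ (s (2 + cos θ), s sin θ, s ^ 2 + s (2 + cos θ))`,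
whose top view is a line through the origin, and the ellipse
`(x - 2 u) ^ 2 + y ^ 2 = u ^ 2, z = x + u ^ 2`. There is no other isotropic circle meeting `M` in
infinitely many points. No algebraic curve is tangent to all lines through the origin with slope
in an interval, so (a) fails; and the circles `(x - 2 u) ^ 2 + y ^ 2 = u ^ 2` do not lie in
two pencils, so (b) fails.
-/

open Set

namespace Pool.Agent.Results.MP_c33e78_gt.ConeSurface

/-! ### Definitions -/

/-- A parabola in a vertical plane whose axis is vertical. -/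
def IsParabola (S : Set (ℝ × ℝ × ℝ)) : Prop :=
  ∃ x0 y0 d e a b c : ℝ, (d ≠ 0 ∨ e ≠ 0) ∧ a ≠ 0 ∧
    S = {p | ∃ s : ℝ, p = (x0 + s * d, y0 + s * e, a * s ^ 2 + b * s + c)}

/-- An ellipse (in a non-vertical plane) which projects orthogonally onto a circle. -/
def IsEllipse (S : Set (ℝ × ℝ × ℝ)) : Prop :=
  ∃ x0 y0 r α β γ : ℝ, 0 < r ∧
    S = {p | (p.1 - x0) ^ 2 + (p.2.1 - y0) ^ 2 = r ^ 2 ∧ p.2.2 = α * p.1 + β * p.2.1 + γ}

/-- Isotropic circles. -/
def IsoCircle (S : Set (ℝ × ℝ × ℝ)) : Prop := IsParabola S ∨ IsEllipse S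

/-- Isotropic spheres: paraboloids of revolution with vertical axis, and circular cylinders with
vertical axis. -/
def IsoSphere (T : Set (ℝ × ℝ × ℝ)) : Prop :=
  (∃ a b c d : ℝ, a ≠ 0 ∧
    T = {p | p.2.2 = a * (p.1 ^ 2 + p.2.1 ^ 2) + b * p.1 + c * p.2.1 + d}) ∨
  (∃ x0 y0 r : ℝ, 0 < r ∧ T = {p | (p.1 - x0) ^ 2 + (p.2.1 - y0) ^ 2 = r ^ 2})

/-- Planes in space. -/
def IsPlane (T : Set (ℝ × ℝ × ℝ)) : Prop :=
  ∃ a b c d : ℝ, (a ≠ 0 ∨ b ≠ 0 ∨ c ≠ 0) ∧ T = {p | a * p.1 + b * p.2.1 + c * p.2.2 = d}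

/-- `Φ '' U` is an analytic surface: `Φ` is an injective real analytic immersion of the planar
domain `U`. -/
structure AnalyticSurface (U : Set (ℝ × ℝ)) (Φ : ℝ × ℝ → ℝ × ℝ × ℝ) : Prop where
  isOpen : IsOpen U
  isConnected : IsConnected U
  injOn : InjOn Φ U
  analytic : AnalyticOnNhd ℝ Φ U
  immersion : ∀ q ∈ U, Function.Injective (fderiv ℝ Φ q)

/-- `c (q, ·)`, for `q ∈ U`, is a regular parametrisation, jointly analytic in `q` and the
parameter `s ∈ (-1, 1)`, of an arc of the isotropic circle `S q` which is contained in the surface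
`Φ '' U` and which passes, for `s = 0`, through the point `Φ q`. -/
structure ArcFamily (U : Set (ℝ × ℝ)) (Φ : ℝ × ℝ → ℝ × ℝ × ℝ)
    (S : ℝ × ℝ → Set (ℝ × ℝ × ℝ)) (c : (ℝ × ℝ) × ℝ → ℝ × ℝ × ℝ) : Prop where
  circle : ∀ q ∈ U, IsoCircle (S q)
  analytic : AnalyticOnNhd ℝ c (U ×ˢ Ioo (-1 : ℝ) 1)
  through : ∀ q ∈ U, c (q, 0) = Φ q
  subset : ∀ q ∈ U, ∀ s ∈ Ioo (-1 : ℝ) 1, c (q, s) ∈ S q ∩ Φ '' U
  regular : ∀ q ∈ U, ∀ s ∈ Ioo (-1 : ℝ) 1, deriv (fun t => c (q, t)) s ≠ 0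
  injOn : ∀ q ∈ U, InjOn (fun t => c (q, t)) (Ioo (-1 : ℝ) 1)

/-- Hypothesis (H) for the surface `Φ '' U`, the isotropic circles through `Φ q` being `S₁ q`
and `S₂ q`. -/
def HypH (U : Set (ℝ × ℝ)) (Φ : ℝ × ℝ → ℝ × ℝ × ℝ) (S₁ S₂ : ℝ × ℝ → Set (ℝ × ℝ × ℝ)) : Prop :=
  AnalyticSurface U Φ ∧ ∃ c₁ c₂ : (ℝ × ℝ) × ℝ → ℝ × ℝ × ℝ,
    ArcFamily U Φ S₁ c₁ ∧ ArcFamily U Φ S₂ c₂ ∧
    (∀ q ∈ U, LinearIndependent ℝ ![deriv (fun t => c₁ (q, t)) 0, deriv (fun t => c₂ (q, t)) 0]) ∧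
    (∀ q ∈ U, ∀ T, IsoSphere T ∨ IsPlane T →
      ¬ ∀ s ∈ Ioo (-1 : ℝ) 1, c₁ (q, s) ∈ T ∧ c₂ (q, s) ∈ T)

/-- The surface contains no arc of an isotropic circle through `Φ q` except arcs of `S₁ q`
and `S₂ q`; even more, no other isotropic circle through `Φ q` has infinitely many points on the
surface. -/
def OnlyTwo (U : Set (ℝ × ℝ)) (Φ : ℝ × ℝ → ℝ × ℝ × ℝ) (S₁ S₂ : ℝ × ℝ → Set (ℝ × ℝ × ℝ)) : Prop :=
  ∀ q ∈ U, ∀ S, IsoCircle S → Φ q ∈ S → (S ∩ Φ '' U).Infinite → S = S₁ q ∨ S = S₂ q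

/-- The top view: the orthogonal projection to the plane `z = 0`. -/
def topView (S : Set (ℝ × ℝ × ℝ)) : Set (ℝ × ℝ) := (fun p => (p.1, p.2.1)) '' S

/-- `F = (F₀, F₁, F₂, F₃)` gives an equation `F₀ (x ^ 2 + y ^ 2) + F₁ x + F₂ y + F₃ = 0` of the
line or circle `L`. -/
def IsEquation (F : Fin 4 → ℝ) (L : Set (ℝ × ℝ)) : Prop :=
  L = {p | F 0 * (p.1 ^ 2 + p.2 ^ 2) + F 1 * p.1 + F 2 * p.2 + F 3 = 0}

/-- The complex points of the line or circle with equation `F`. -/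
def complexPts (F : Fin 4 → ℝ) : Set (Fin 2 → ℂ) :=
  {p | (F 0 : ℂ) * (p 0 ^ 2 + p 1 ^ 2) + F 1 * p 0 + F 2 * p 1 + F 3 = 0}

/-- Polynomials defining cyclics. -/
def IsCyclic (P : MvPolynomial (Fin 2) ℝ) : Prop :=
  P ≠ 0 ∧ ∃ (a b c : ℝ) (Q : MvPolynomial (Fin 2) ℝ), Q.totalDegree ≤ 2 ∧
    P = MvPolynomial.C a * (MvPolynomial.X 0 ^ 2 + MvPolynomial.X 1 ^ 2) ^ 2 +
      (MvPolynomial.X 0 ^ 2 + MvPolynomial.X 1 ^ 2) *
        (MvPolynomial.C b * MvPolynomial.X 0 + MvPolynomial.C c * MvPolynomial.X 1) + Q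

/-- The complex points of the curve `P = 0`. -/
def curve (P : MvPolynomial (Fin 2) ℝ) : Set (Fin 2 → ℂ) := {p | MvPolynomial.aeval p P = 0}

/-- The ideal of the reduced curve: the complex polynomials vanishing on all points of `P = 0`. -/
def VanishOn (P : MvPolynomial (Fin 2) ℝ) (R : MvPolynomial (Fin 2) ℂ) : Prop :=
  ∀ q ∈ curve P, MvPolynomial.eval q R = 0

/-- The line or circle with equation `F` is tangent at `p ∈ ℂ²` to the curve `P = 0`: the point
lies on both, it is a nonsingular point of the reduced curve (some polynomial vanishing on the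
curve has a nonzero gradient at `p`), the line or circle is not contained in the curve, and the
two tangent lines at `p` agree (the gradient at `p` of each polynomial vanishing on the curve is
proportional to that of `F`). -/
def TangentAt (P : MvPolynomial (Fin 2) ℝ) (F : Fin 4 → ℝ) (p : Fin 2 → ℂ) : Prop :=
  p ∈ complexPts F ∧ p ∈ curve P ∧
  (∃ R, VanishOn P R ∧ (MvPolynomial.eval p (MvPolynomial.pderiv 0 R) ≠ 0 ∨
    MvPolynomial.eval p (MvPolynomial.pderiv 1 R) ≠ 0)) ∧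
  ¬ complexPts F ⊆ curve P ∧
  (∀ R, VanishOn P R → MvPolynomial.eval p (MvPolynomial.pderiv 0 R) * (2 * F 0 * p 1 + F 2) =
    MvPolynomial.eval p (MvPolynomial.pderiv 1 R) * (2 * F 0 * p 0 + F 1))

/-- Alternative (a): some cyclic is tangent at two (possibly coinciding) points of `ℂ²` to all the
top views. -/
def CondA (U : Set (ℝ × ℝ)) (S₁ S₂ : ℝ × ℝ → Set (ℝ × ℝ × ℝ)) : Prop :=
  ∃ P, IsCyclic P ∧ ∀ q ∈ U, ∀ S, S = S₁ q ∨ S = S₂ q → ∀ F, IsEquation F (topView S) →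
    ∃ p₁ p₂, TangentAt P F p₁ ∧ TangentAt P F p₂

/-- Alternative (b): all the top views lie in a union of two pencils of circles. -/
def CondB (U : Set (ℝ × ℝ)) (S₁ S₂ : ℝ × ℝ → Set (ℝ × ℝ × ℝ)) : Prop :=
  ∃ F₁ F₂ G₁ G₂ : Fin 4 → ℝ, LinearIndependent ℝ ![F₁, F₂] ∧ LinearIndependent ℝ ![G₁, G₂] ∧
    ∀ q ∈ U, ∀ S, S = S₁ q ∨ S = S₂ q → ∀ F, IsEquation F (topView S) →
      F ∈ Submodule.span ℝ {F₁, F₂} ∨ F ∈ Submodule.span ℝ {G₁, G₂}

/-! ### The example -/

/-- The domain. -/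
def UU : Set (ℝ × ℝ) := Ioi (0 : ℝ) ×ˢ Ioo (-(Real.pi / 2)) (Real.pi / 2)

/-- The parametrisation. -/
noncomputable def Ph (q : ℝ × ℝ) : ℝ × ℝ × ℝ :=
  (q.1 * (2 + Real.cos q.2), q.1 * Real.sin q.2, q.1 ^ 2 + q.1 * (2 + Real.cos q.2))

/-- The parabolas. -/
def SA (q : ℝ × ℝ) : Set (ℝ × ℝ × ℝ) :=
  {p | ∃ s : ℝ, p = (s * (2 + Real.cos q.2), s * Real.sin q.2,
    s ^ 2 + s * (2 + Real.cos q.2))}

/-- The ellipses. -/
def SB (q : ℝ × ℝ) : Set (ℝ × ℝ × ℝ) :=
  {p | (p.1 - 2 * q.1) ^ 2 + p.2.1 ^ 2 = q.1 ^ 2 ∧ p.2.2 = p.1 + q.1 ^ 2}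

/-- Arcs of parabolas. -/
noncomputable def cA (x : (ℝ × ℝ) × ℝ) : ℝ × ℝ × ℝ := Ph (x.1.1 * (1 + x.2), x.1.2)

/-- Arcs of ellipses. -/
noncomputable def cB (x : (ℝ × ℝ) × ℝ) : ℝ × ℝ × ℝ :=
  Ph (x.1.1, x.1.2 + x.2 * Real.cos x.1.2)

lemma cos_pos_of_mem {θ : ℝ} (h : θ ∈ Ioo (-(Real.pi / 2)) (Real.pi / 2)) : 0 < Real.cos θ :=
  Real.cos_pos_of_mem_Ioo h

lemma mem_shift {θ s : ℝ} (h : θ ∈ Ioo (-(Real.pi / 2)) (Real.pi / 2)) (hs : s ∈ Ioo (-1 : ℝ) 1) :
    θ + s * Real.cos θ ∈ Ioo (-(Real.pi / 2)) (Real.pi / 2) := by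
  have hc := cos_pos_of_mem h
  have h1 : Real.cos θ ≤ Real.pi / 2 - θ := by
    rw [← Real.sin_pi_div_two_sub]
    exact Real.sin_le (by linarith [h.2])
  have h2 : Real.cos θ ≤ Real.pi / 2 + θ := by
    rw [← Real.cos_neg, ← Real.sin_pi_div_two_sub, sub_neg_eq_add]
    exact Real.sin_le (by linarith [h.1])
  obtain ⟨hs1, hs2⟩ := hs
  constructor
  · nlinarith
  · nlinarith

lemma analytic_Ph : AnalyticOnNhd ℝ Ph univ := by
  intro q _
  unfold Ph
  have h1 : AnalyticAt ℝ (fun q : ℝ × ℝ => q.1) q := analyticAt_fst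
  have h2 : AnalyticAt ℝ (fun q : ℝ × ℝ => q.2) q := analyticAt_snd
  have hc : AnalyticAt ℝ (fun q : ℝ × ℝ => Real.cos q.2) q :=
    (Real.analyticAt_cos).comp_of_eq h2 rfl
  have hs : AnalyticAt ℝ (fun q : ℝ × ℝ => Real.sin q.2) q :=
    (Real.analyticAt_sin).comp_of_eq h2 rfl
  have h3 : AnalyticAt ℝ (fun q : ℝ × ℝ => q.1 * (2 + Real.cos q.2)) q :=
    h1.mul (analyticAt_const.add hc)
  exact h3.prod ((h1.mul hs).prod ((h1.pow 2).add h3))

lemma deriv_line (u θ v w t : ℝ) :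
    HasDerivAt (fun s => Ph (u + s * v, θ + s * w))
      (v * (2 + Real.cos (θ + t * w)) - (u + t * v) * (Real.sin (θ + t * w) * w),
        v * Real.sin (θ + t * w) + (u + t * v) * (Real.cos (θ + t * w) * w),
        2 * (u + t * v) * v +
          (v * (2 + Real.cos (θ + t * w)) - (u + t * v) * (Real.sin (θ + t * w) * w))) t := by
  unfold Ph
  have h1 : HasDerivAt (fun s : ℝ => u + s * v) v t := by
    simpa using ((hasDerivAt_id t).mul_const v).const_add u
  have h2 : HasDerivAt (fun s : ℝ => θ + s * w) w t := by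
    simpa using ((hasDerivAt_id t).mul_const w).const_add θ
  have hc := h2.cos
  have hs := h2.sin
  have hx : HasDerivAt (fun s : ℝ => (u + s * v) * (2 + Real.cos (θ + s * w)))
      (v * (2 + Real.cos (θ + t * w)) - (u + t * v) * (Real.sin (θ + t * w) * w)) t := by
    refine (h1.mul (hc.const_add 2)).congr_deriv ?_
    ring
  have hy : HasDerivAt (fun s : ℝ => (u + s * v) * Real.sin (θ + s * w))
      (v * Real.sin (θ + t * w) + (u + t * v) * (Real.cos (θ + t * w) * w)) t :=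
    h1.mul hs
  have hz : HasDerivAt (fun s : ℝ => (u + s * v) ^ 2 +
      (u + s * v) * (2 + Real.cos (θ + s * w)))
      (2 * (u + t * v) * v +
          (v * (2 + Real.cos (θ + t * w)) - (u + t * v) * (Real.sin (θ + t * w) * w))) t := by
    refine ((h1.pow 2).add hx).congr_deriv ?_
    simp
  exact hx.prodMk (hy.prodMk hz)

lemma cA_eq (u θ : ℝ) : (fun t => cA ((u, θ), t)) = fun t => Ph (u + t * u, θ + t * 0) := by
  funext t
  unfold cA
  simp only [mul_zero, add_zero]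
  congr 2
  ring

lemma cB_eq (u θ : ℝ) :
    (fun t => cB ((u, θ), t)) = fun t => Ph (u + t * 0, θ + t * Real.cos θ) := by
  funext t
  unfold cB
  simp only [mul_zero, add_zero]

lemma deriv_cA (u θ t : ℝ) : deriv (fun t => cA ((u, θ), t)) t =
    (u * (2 + Real.cos θ), u * Real.sin θ, 2 * (u + t * u) * u + u * (2 + Real.cos θ)) := by
  rw [cA_eq, (deriv_line u θ u 0 t).deriv]
  simp

lemma deriv_cB (u θ t : ℝ) : deriv (fun t => cB ((u, θ), t)) t =
    (-(u * (Real.sin (θ + t * Real.cos θ) * Real.cos θ)),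
      u * (Real.cos (θ + t * Real.cos θ) * Real.cos θ),
      -(u * (Real.sin (θ + t * Real.cos θ) * Real.cos θ))) := by
  rw [cB_eq, (deriv_line u θ 0 (Real.cos θ) t).deriv]
  simp

lemma injOn_Ph : InjOn Ph UU := by
  rintro ⟨u, θ⟩ ⟨hu, hθ⟩ ⟨v, φ⟩ ⟨hv, hφ⟩ h
  simp only [mem_Ioi] at hu hv
  simp only [Ph, Prod.mk.injEq] at h
  obtain ⟨h1, h2, h3⟩ := h
  have huv : u = v := by
    have h4 : u ^ 2 = v ^ 2 := by linarith
    nlinarith
  subst huv
  have hs : Real.sin θ = Real.sin φ := mul_left_cancel₀ hu.ne' h2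
  have : θ = φ := Real.injOn_sin ⟨hθ.1.le, hθ.2.le⟩ ⟨hφ.1.le, hφ.2.le⟩ hs
  rw [this]

lemma surface : AnalyticSurface UU Ph where
  isOpen := isOpen_Ioi.prod isOpen_Ioo
  isConnected := isConnected_Ioi.prod (isConnected_Ioo (by linarith [Real.pi_pos]))
  injOn := injOn_Ph
  analytic := analytic_Ph.mono (subset_univ _)
  immersion := by
    rintro ⟨u, θ⟩ ⟨hu, hθ⟩
    simp only [mem_Ioi] at hu
    rw [injective_iff_map_eq_zero]
    rintro ⟨v, w⟩ hvw
    have hd : HasFDerivAt Ph (fderiv ℝ Ph (u, θ)) (u + 0 * v, θ + 0 * w) := by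
      have := (analytic_Ph (u, θ) (mem_univ _)).differentiableAt.hasFDerivAt
      simpa using this
    have hl : HasDerivAt (fun s : ℝ => (u + s * v, θ + s * w)) (v, w) 0 := by
      have h1 : HasDerivAt (fun s : ℝ => u + s * v) v 0 := by
        simpa using ((hasDerivAt_id (0 : ℝ)).mul_const v).const_add u
      have h2 : HasDerivAt (fun s : ℝ => θ + s * w) w 0 := by
        simpa using ((hasDerivAt_id (0 : ℝ)).mul_const w).const_add θ
      exact h1.prodMk h2
    have h3 := HasFDerivAt.comp_hasDerivAt (0 : ℝ) hd hl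
    have h4 := h3.unique (deriv_line u θ v w 0)
    rw [hvw] at h4
    simp only [zero_mul, add_zero] at h4
    have e1 := congrArg Prod.fst h4
    have e2 := congrArg (fun p : ℝ × ℝ × ℝ => p.2.1) h4
    have e3 := congrArg (fun p : ℝ × ℝ × ℝ => p.2.2) h4
    simp only [Prod.fst_zero, Prod.snd_zero] at e1 e2 e3
    have hc := cos_pos_of_mem hθ
    have hv : v = 0 := by
      have : 2 * u * v = 0 := by linarith
      rcases mul_eq_zero.1 this with h | h
      · linarith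
      · exact h
    rw [hv] at e2
    have hw : w = 0 := by
      have : (u * Real.cos θ) * w = 0 := by linarith
      rcases mul_eq_zero.1 this with h | h
      · exact absurd h (mul_pos hu hc).ne'
      · exact h
    rw [hv, hw]
    rfl

lemma familyA : ArcFamily UU Ph SA cA where
  circle := by
    rintro ⟨u, θ⟩ ⟨hu, hθ⟩
    left
    refine ⟨0, 0, 2 + Real.cos θ, Real.sin θ, 1, 2 + Real.cos θ, 0, Or.inl ?_, one_ne_zero, ?_⟩
    · linarith [Real.neg_one_le_cos θ]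
    · ext p
      simp only [SA, mem_ofPred_eq]
      constructor
      · rintro ⟨s, rfl⟩
        exact ⟨s, by ext <;> simp; ring⟩
      · rintro ⟨s, rfl⟩
        exact ⟨s, by ext <;> simp; ring⟩
  analytic := by
    intro x _
    unfold cA
    have h1 : AnalyticAt ℝ (fun x : (ℝ × ℝ) × ℝ => x.1.1) x :=
      analyticAt_fst.comp_of_eq analyticAt_fst rfl
    have h2 : AnalyticAt ℝ (fun x : (ℝ × ℝ) × ℝ => x.1.2) x :=
      analyticAt_snd.comp_of_eq analyticAt_fst rfl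
    have h3 : AnalyticAt ℝ (fun x : (ℝ × ℝ) × ℝ => x.2) x := analyticAt_snd
    have h4 : AnalyticAt ℝ (fun x : (ℝ × ℝ) × ℝ => (x.1.1 * (1 + x.2), x.1.2)) x :=
      (h1.mul (analyticAt_const.add h3)).prod h2
    exact (analytic_Ph _ (mem_univ _)).comp_of_eq h4 rfl
  through := by
    rintro ⟨u, θ⟩ _
    simp [cA]
  subset := by
    rintro ⟨u, θ⟩ ⟨hu, hθ⟩ s ⟨hs1, hs2⟩
    simp only [mem_Ioi] at hu
    refine ⟨⟨u * (1 + s), ?_⟩, ⟨(u * (1 + s), θ), ⟨?_, hθ⟩, rfl⟩⟩
    · simp [cA, Ph]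
    · simp only [mem_Ioi]
      exact mul_pos hu (by linarith)
  regular := by
    rintro ⟨u, θ⟩ ⟨hu, hθ⟩ s _ h0
    simp only [mem_Ioi] at hu
    rw [deriv_cA] at h0
    have e1 := congrArg Prod.fst h0
    simp only [Prod.fst_zero] at e1
    have : 0 < u * (2 + Real.cos θ) := mul_pos hu (by linarith [Real.neg_one_le_cos θ])
    linarith
  injOn := by
    rintro ⟨u, θ⟩ ⟨hu, hθ⟩ s ⟨hs1, hs2⟩ t ⟨ht1, ht2⟩ h
    simp only [mem_Ioi] at hu
    have h1 : (u * (1 + s), θ) = (u * (1 + t), θ) :=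
      @injOn_Ph (u * (1 + s), θ) ⟨mul_pos hu (by linarith), hθ⟩ (u * (1 + t), θ)
        ⟨mul_pos hu (by linarith), hθ⟩ h
    have h2 : u * (1 + s) = u * (1 + t) := congrArg Prod.fst h1
    have := mul_left_cancel₀ hu.ne' h2
    linarith

lemma familyB : ArcFamily UU Ph SB cB where
  circle := by
    rintro ⟨u, θ⟩ ⟨hu, hθ⟩
    simp only [mem_Ioi] at hu
    right
    refine ⟨2 * u, 0, u, 1, 0, u ^ 2, hu, ?_⟩
    ext p
    simp only [SB, mem_ofPred_eq]
    constructor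
    · rintro ⟨h1, h2⟩
      exact ⟨by linarith, by linarith⟩
    · rintro ⟨h1, h2⟩
      exact ⟨by linarith, by linarith⟩
  analytic := by
    intro x _
    unfold cB
    have h1 : AnalyticAt ℝ (fun x : (ℝ × ℝ) × ℝ => x.1.1) x :=
      analyticAt_fst.comp_of_eq analyticAt_fst rfl
    have h2 : AnalyticAt ℝ (fun x : (ℝ × ℝ) × ℝ => x.1.2) x :=
      analyticAt_snd.comp_of_eq analyticAt_fst rfl
    have h3 : AnalyticAt ℝ (fun x : (ℝ × ℝ) × ℝ => x.2) x := analyticAt_snd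
    have hc : AnalyticAt ℝ (fun x : (ℝ × ℝ) × ℝ => Real.cos x.1.2) x :=
      (Real.analyticAt_cos).comp_of_eq h2 rfl
    have h4 : AnalyticAt ℝ
        (fun x : (ℝ × ℝ) × ℝ => (x.1.1, x.1.2 + x.2 * Real.cos x.1.2)) x :=
      h1.prod (h2.add (h3.mul hc))
    exact (analytic_Ph _ (mem_univ _)).comp_of_eq h4 rfl
  through := by
    rintro ⟨u, θ⟩ _
    simp [cB]
  subset := by
    rintro ⟨u, θ⟩ ⟨hu, hθ⟩ s hs
    refine ⟨?_, ⟨(u, θ + s * Real.cos θ), ⟨hu, mem_shift hθ hs⟩, rfl⟩⟩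
    simp only [cB, Ph, SB, mem_ofPred_eq]
    refine ⟨?_, by ring⟩
    linear_combination u ^ 2 * Real.sin_sq_add_cos_sq (θ + s * Real.cos θ)
  regular := by
    rintro ⟨u, θ⟩ ⟨hu, hθ⟩ s hs h0
    simp only [mem_Ioi] at hu
    rw [deriv_cB] at h0
    have e1 := congrArg (fun p : ℝ × ℝ × ℝ => p.2.1) h0
    simp only [Prod.snd_zero, Prod.fst_zero] at e1
    have h1 := cos_pos_of_mem hθ
    have h2 := cos_pos_of_mem (mem_shift hθ hs)
    have : 0 < u * (Real.cos (θ + s * Real.cos θ) * Real.cos θ) := by positivity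
    linarith
  injOn := by
    rintro ⟨u, θ⟩ ⟨hu, hθ⟩ s hs t ht h
    have h1 : (u, θ + s * Real.cos θ) = (u, θ + t * Real.cos θ) :=
      @injOn_Ph (u, θ + s * Real.cos θ) ⟨hu, mem_shift hθ hs⟩ (u, θ + t * Real.cos θ)
        ⟨hu, mem_shift hθ ht⟩ h
    have h2 : θ + s * Real.cos θ = θ + t * Real.cos θ := congrArg Prod.snd h1
    have h3 : s * Real.cos θ = t * Real.cos θ := by linarith
    exact mul_right_cancel₀ (cos_pos_of_mem hθ).ne' h3

lemma trig_zero {α β γ θ δ : ℝ} (hδ : 0 < δ)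
    (h : ∀ s ∈ Ioo (-1 : ℝ) 1, α + β * Real.cos (θ + s * δ) + γ * Real.sin (θ + s * δ) = 0) :
    α = 0 ∧ β = 0 ∧ γ = 0 := by
  have han : AnalyticOnNhd ℝ (fun s : ℝ => α + β * Real.cos (θ + s * δ) +
      γ * Real.sin (θ + s * δ)) univ := by
    intro x _
    have h1 : AnalyticAt ℝ (fun s : ℝ => θ + s * δ) x :=
      analyticAt_const.add (analyticAt_id.mul analyticAt_const)
    have hc : AnalyticAt ℝ (fun s : ℝ => Real.cos (θ + s * δ)) x :=
      (Real.analyticAt_cos).comp_of_eq h1 rfl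
    have hs : AnalyticAt ℝ (fun s : ℝ => Real.sin (θ + s * δ)) x :=
      (Real.analyticAt_sin).comp_of_eq h1 rfl
    exact (analyticAt_const.add (analyticAt_const.mul hc)).add (analyticAt_const.mul hs)
  have hev : (fun s : ℝ => α + β * Real.cos (θ + s * δ) +
      γ * Real.sin (θ + s * δ)) =ᶠ[nhds 0] fun _ => 0 := by
    filter_upwards [Ioo_mem_nhds (show (-1 : ℝ) < 0 by norm_num) (show (0 : ℝ) < 1 by norm_num)]
      with s hs
    exact h s hs
  have hall := han.eq_of_eventuallyEq analyticOnNhd_const hev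
  have key : ∀ φ : ℝ, α + β * Real.cos φ + γ * Real.sin φ = 0 := by
    intro φ
    have := congrFun hall ((φ - θ) / δ)
    have e : θ + (φ - θ) / δ * δ = φ := by field_simp; ring
    rwa [e] at this
  have k0 := key 0
  have k1 := key Real.pi
  have k2 := key (Real.pi / 2)
  simp only [Real.cos_zero, Real.sin_zero, Real.cos_pi, Real.sin_pi, Real.cos_pi_div_two,
    Real.sin_pi_div_two] at k0 k1 k2
  refine ⟨by linarith, by linarith, by linarith⟩

lemma quad_zero {u a b c : ℝ} (hu : 0 < u)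
    (h : ∀ s ∈ Ioo (-1 : ℝ) 1, a * (u * (1 + s)) ^ 2 + b * (u * (1 + s)) + c = 0) :
    a = 0 ∧ b = 0 ∧ c = 0 := by
  have h0 := h 0 ⟨by norm_num, by norm_num⟩
  have h1 := h (1 / 2) ⟨by norm_num, by norm_num⟩
  have h2 := h (-(1 / 2)) ⟨by norm_num, by norm_num⟩
  have ha : a * u ^ 2 = 0 := by linear_combination 2 * h1 + 2 * h2 - 4 * h0
  have ha' : a = 0 := by
    rcases mul_eq_zero.1 ha with h | h
    · exact h
    · exact absurd h (pow_pos hu 2).ne'
  have hb : b * u = 0 := by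
    rw [ha'] at h0 h1 h2
    linear_combination h1 - h2
  have hb' : b = 0 := by
    rcases mul_eq_zero.1 hb with h | h
    · exact h
    · exact absurd h hu.ne'
  refine ⟨ha', hb', ?_⟩
  rw [ha', hb'] at h0
  linarith

lemma hypH : HypH UU Ph SA SB := by
  refine ⟨surface, cA, cB, familyA, familyB, ?_, ?_⟩
  · rintro ⟨u, θ⟩ ⟨hu, hθ⟩
    simp only [mem_Ioi] at hu
    have hc := cos_pos_of_mem hθ
    rw [LinearIndependent.pair_iff]
    intro s t hst
    rw [deriv_cA, deriv_cB] at hst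
    have e1 := congrArg Prod.fst hst
    have e2 := congrArg (fun p : ℝ × ℝ × ℝ => p.2.1) hst
    have e3 := congrArg (fun p : ℝ × ℝ × ℝ => p.2.2) hst
    simp only [zero_mul, add_zero, Prod.smul_mk, Prod.mk_add_mk, smul_eq_mul, Prod.fst_zero,
      Prod.snd_zero] at e1 e2 e3
    have hs : s = 0 := by
      have : s * (2 * u * u) = 0 := by linarith
      rcases mul_eq_zero.1 this with h | h
      · exact h
      · exact absurd h (by positivity)
    rw [hs] at e2
    refine ⟨hs, ?_⟩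
    have : t * (u * (Real.cos θ * Real.cos θ)) = 0 := by linarith
    rcases mul_eq_zero.1 this with h | h
    · exact h
    · exact absurd h (by positivity)
  · rintro ⟨u, θ⟩ ⟨hu, hθ⟩ T hT hcon
    simp only [mem_Ioi] at hu
    have hc := cos_pos_of_mem hθ
    rcases hT with (⟨a, b, c, d, ha, rfl⟩ | ⟨x0, y0, r, hr, rfl⟩) | ⟨a, b, c, d, habc, rfl⟩
    · -- paraboloid
      have hA : ∀ s ∈ Ioo (-1 : ℝ) 1,
          (a * ((2 + Real.cos θ) ^ 2 + Real.sin θ ^ 2) - 1) * (u * (1 + s)) ^ 2 +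
          (b * (2 + Real.cos θ) + c * Real.sin θ - (2 + Real.cos θ)) * (u * (1 + s)) + d = 0 := by
        intro s hs
        have h1 := (hcon s hs).1
        simp only [cA, Ph, mem_ofPred_eq] at h1
        linear_combination -h1
      have hB : ∀ s ∈ Ioo (-1 : ℝ) 1,
          (5 * a * u ^ 2 + 2 * b * u + d - u ^ 2 - 2 * u) +
            (4 * a * u ^ 2 + b * u - u) * Real.cos (θ + s * Real.cos θ) +
            (c * u) * Real.sin (θ + s * Real.cos θ) = 0 := by
        intro s hs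
        have h1 := (hcon s hs).2
        simp only [cB, Ph, mem_ofPred_eq] at h1
        linear_combination -h1 - a * u ^ 2 * Real.sin_sq_add_cos_sq (θ + s * Real.cos θ)
      obtain ⟨a1, a2, a3⟩ := quad_zero hu hA
      obtain ⟨b1, b2, b3⟩ := trig_zero hc hB
      have hc0 : c = 0 := by
        rcases mul_eq_zero.1 b3 with h | h
        · exact h
        · exact absurd h hu.ne'
      rw [hc0] at a2
      have hb1 : b = 1 := by
        have : (b - 1) * (2 + Real.cos θ) = 0 := by linarith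
        rcases mul_eq_zero.1 this with h | h
        · linarith
        · exact absurd h (by positivity)
      rw [hb1] at b2
      have : a * (4 * u ^ 2) = 0 := by linarith
      rcases mul_eq_zero.1 this with h | h
      · exact ha h
      · exact absurd h (by positivity)
    · -- cylinder
      have hA : ∀ s ∈ Ioo (-1 : ℝ) 1,
          ((2 + Real.cos θ) ^ 2 + Real.sin θ ^ 2) * (u * (1 + s)) ^ 2 +
          (-2 * x0 * (2 + Real.cos θ) - 2 * y0 * Real.sin θ) * (u * (1 + s)) +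
            (x0 ^ 2 + y0 ^ 2 - r ^ 2) = 0 := by
        intro s hs
        have h1 := (hcon s hs).1
        simp only [cA, Ph, mem_ofPred_eq] at h1
        linear_combination h1
      obtain ⟨a1, a2, a3⟩ := quad_zero hu hA
      have : 0 < (2 + Real.cos θ) ^ 2 + Real.sin θ ^ 2 := by positivity
      linarith
    · -- plane
      have hA : ∀ s ∈ Ioo (-1 : ℝ) 1, c * (u * (1 + s)) ^ 2 +
          (a * (2 + Real.cos θ) + b * Real.sin θ + c * (2 + Real.cos θ)) * (u * (1 + s)) +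
            (-d) = 0 := by
        intro s hs
        have h1 := (hcon s hs).1
        simp only [cA, Ph, mem_ofPred_eq] at h1
        linear_combination h1
      have hB : ∀ s ∈ Ioo (-1 : ℝ) 1,
          (2 * a * u + c * (u ^ 2 + 2 * u) - d) +
            ((a + c) * u) * Real.cos (θ + s * Real.cos θ) +
            (b * u) * Real.sin (θ + s * Real.cos θ) = 0 := by
        intro s hs
        have h1 := (hcon s hs).2
        simp only [cB, Ph, mem_ofPred_eq] at h1
        linear_combination h1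
      obtain ⟨a1, a2, a3⟩ := quad_zero hu hA
      obtain ⟨b1, b2, b3⟩ := trig_zero hc hB
      have hb0 : b = 0 := by
        rcases mul_eq_zero.1 b3 with h | h
        · exact h
        · exact absurd h hu.ne'
      have ha0 : a = 0 := by
        rcases mul_eq_zero.1 b2 with h | h
        · linarith
        · exact absurd h hu.ne'
      rcases habc with h | h | h
      · exact h ha0
      · exact h hb0
      · exact h a1

/-! ### Only two isotropic circles -/

lemma surf_eq {p : ℝ × ℝ × ℝ} (hp : p ∈ Ph '' UU) :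
    (p.1 ^ 2 + p.2.1 ^ 2 + 3 * (p.2.2 - p.1)) ^ 2 = 16 * p.1 ^ 2 * (p.2.2 - p.1) := by
  obtain ⟨⟨u, θ⟩, _, rfl⟩ := hp
  simp only [Ph]
  have h := Real.sin_sq_add_cos_sq θ
  have h1 : (u * (2 + Real.cos θ)) ^ 2 + (u * Real.sin θ) ^ 2 +
      3 * (u ^ 2 + u * (2 + Real.cos θ) - u * (2 + Real.cos θ)) =
      4 * u * (u * (2 + Real.cos θ)) := by
    linear_combination u ^ 2 * h
  rw [h1]
  ring

lemma onlyTwo : OnlyTwo UU Ph SA SB := by
  rintro ⟨u, θ⟩ ⟨hu, hθ⟩ S hS hpS hinf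
  simp only [mem_Ioi] at hu
  have hc := cos_pos_of_mem hθ
  rcases hS with ⟨x0, y0, d, e, a, b, c, hde, ha, rfl⟩ | ⟨x0, y0, r, α, β, γ, hr, rfl⟩
  · -- parabolas
    left
    have hinf' : {s : ℝ | ((x0 + s * d) ^ 2 + (y0 + s * e) ^ 2 +
        3 * (a * s ^ 2 + b * s + c - (x0 + s * d))) ^ 2 =
        16 * (x0 + s * d) ^ 2 * (a * s ^ 2 + b * s + c - (x0 + s * d))}.Infinite := by
      intro hfin
      refine hinf ((hfin.image (fun s : ℝ => (x0 + s * d, y0 + s * e,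
        a * s ^ 2 + b * s + c))).subset ?_)
      rintro p ⟨⟨s, rfl⟩, hp⟩
      exact ⟨s, surf_eq hp, rfl⟩
    obtain ⟨t0, hx0, hy0, hw⟩ := Q197.OnlyTwo.parabola_case hde ha hinf'
    obtain ⟨s0, hs0⟩ := hpS
    simp only [Ph, Prod.mk.injEq] at hs0
    obtain ⟨e1, e2, e3⟩ := hs0
    have e4 := hw s0
    have e5 : u ^ 2 = a * (s0 - t0) ^ 2 := by rw [← e4, ← e3, ← e1]; ring
    have hne : s0 - t0 ≠ 0 := by
      intro h0
      rw [h0] at e5
      have : 0 < u ^ 2 := by positivity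
      simp at e5
      exact hu.ne' e5
    set l : ℝ := u / (s0 - t0) with hl
    have hl0 : l ≠ 0 := div_ne_zero hu.ne' hne
    have hul : l * (s0 - t0) = u := by rw [hl]; field_simp
    have ed : d = l * (2 + Real.cos θ) := by
      have : d * (s0 - t0) = (l * (2 + Real.cos θ)) * (s0 - t0) := by
        rw [hx0] at e1
        linear_combination -e1 - (2 + Real.cos θ) * hul
      exact mul_right_cancel₀ hne this
    have ee : e = l * Real.sin θ := by
      have : e * (s0 - t0) = (l * Real.sin θ) * (s0 - t0) := by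
        rw [hy0] at e2
        linear_combination -e2 - Real.sin θ * hul
      exact mul_right_cancel₀ hne this
    have ea : a = l ^ 2 := by
      have : a * (s0 - t0) ^ 2 = l ^ 2 * (s0 - t0) ^ 2 := by
        rw [← e5, ← hul]; ring
      exact mul_right_cancel₀ (pow_ne_zero 2 hne) this
    ext p
    simp only [SA, mem_ofPred_eq]
    constructor
    · rintro ⟨s, rfl⟩
      refine ⟨l * (s - t0), ?_⟩
      have h6 := hw s
      ext
      · simp only
        rw [hx0, ed]; ring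
      · simp only
        rw [hy0, ee]; ring
      · simp only
        rw [hx0, ed, ea] at h6
        rw [ea]
        linear_combination h6
    · rintro ⟨s, rfl⟩
      refine ⟨s / l + t0, ?_⟩
      have h6 := hw (s / l + t0)
      have h7 : s / l * l = s := by field_simp
      ext
      · simp only
        rw [hx0, ed]
        linear_combination -(2 + Real.cos θ) * h7
      · simp only
        rw [hy0, ee]
        linear_combination -(Real.sin θ) * h7
      · simp only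
        rw [hx0, ed, ea] at h6
        rw [ea]
        have h8 : (s / l) ^ 2 * l ^ 2 = s ^ 2 := by rw [← mul_pow, h7]
        linear_combination -h6 - h8 - (2 + Real.cos θ) * h7
  · -- ellipses
    right
    obtain ⟨hp1, hp2⟩ := hpS
    simp only [Ph] at hp1 hp2
    set P : ℝ := u * (2 + Real.cos θ) - x0 with hP
    set Q : ℝ := u * Real.sin θ - y0 with hQ
    have hr2 : r ^ 2 ≠ 0 := (pow_pos hr 2).ne'
    -- parametrisation of the circle
    have hpar : ∀ x y : ℝ, (x - x0) ^ 2 + (y - y0) ^ 2 = r ^ 2 →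
        (x = x0 - P ∧ y = y0 - Q) ∨ ∃ t : ℝ,
          x * (1 + t ^ 2) = x0 * (1 + t ^ 2) + P * (1 - t ^ 2) - 2 * Q * t ∧
          y * (1 + t ^ 2) = y0 * (1 + t ^ 2) + Q * (1 - t ^ 2) + 2 * P * t := by
      intro x y hxy
      set m := x - x0 with hm
      set n := y - y0 with hn
      by_cases h0 : r ^ 2 + m * P + n * Q = 0
      · left
        have h1 : (m + P) ^ 2 + (n + Q) ^ 2 = 0 := by
          linear_combination hxy + hp1 + 2 * h0
        have h2 : m + P = 0 := by nlinarith [sq_nonneg (m + P), sq_nonneg (n + Q)]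
        have h3 : n + Q = 0 := by nlinarith [sq_nonneg (m + P), sq_nonneg (n + Q)]
        constructor
        · rw [hm] at h2; linarith
        · rw [hn] at h3; linarith
      · right
        set k := r ^ 2 + m * P + n * Q with hk
        have hkj : (n * P - m * Q) ^ 2 = r ^ 4 - (m * P + n * Q) ^ 2 := by
          have : (m ^ 2 + n ^ 2) * (P ^ 2 + Q ^ 2) = r ^ 4 := by rw [hxy, hp1]; ring
          linear_combination this
        have hA : m * P + n * Q = k - r ^ 2 := by rw [hk]; ring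
        have h1 : 1 + ((n * P - m * Q) / k) ^ 2 = 2 * r ^ 2 / k := by
          rw [div_pow, hkj, hA]
          field_simp
          ring
        have h2 : 1 - ((n * P - m * Q) / k) ^ 2 = 2 * (m * P + n * Q) / k := by
          rw [div_pow, hkj, hA]
          field_simp
          ring
        have hx : x = x0 + m := by rw [hm]; ring
        have hy : y = y0 + n := by rw [hn]; ring
        refine ⟨(n * P - m * Q) / k, ?_, ?_⟩
        · rw [hx, h1, h2]
          field_simp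
          linear_combination (-m) * hp1
        · rw [hy, h1, h2]
          field_simp
          linear_combination (-n) * hp1
    set S := {p : ℝ × ℝ × ℝ | (p.1 - x0) ^ 2 + (p.2.1 - y0) ^ 2 = r ^ 2 ∧
      p.2.2 = α * p.1 + β * p.2.1 + γ} with hS
    -- infinitely many parameters
    have hcover : ∀ p ∈ S ∩ Ph '' UU, p = (x0 - P, y0 - Q, α * (x0 - P) + β * (y0 - Q) + γ) ∨
        ∃ t : ℝ, (((2 * x0 + 3 * (α - 1)) * (x0 * (1 + t ^ 2) + P * (1 - t ^ 2) - 2 * Q * t) +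
        (2 * y0 + 3 * β) * (y0 * (1 + t ^ 2) + Q * (1 - t ^ 2) + 2 * P * t) +
        (r ^ 2 - x0 ^ 2 - y0 ^ 2 + 3 * γ) * (1 + t ^ 2)) ^ 2 * (1 + t ^ 2) =
      16 * (x0 * (1 + t ^ 2) + P * (1 - t ^ 2) - 2 * Q * t) ^ 2 *
        ((α - 1) * (x0 * (1 + t ^ 2) + P * (1 - t ^ 2) - 2 * Q * t) +
        β * (y0 * (1 + t ^ 2) + Q * (1 - t ^ 2) + 2 * P * t) + γ * (1 + t ^ 2))) ∧
        p = ((x0 * (1 + t ^ 2) + P * (1 - t ^ 2) - 2 * Q * t) / (1 + t ^ 2),
          (y0 * (1 + t ^ 2) + Q * (1 - t ^ 2) + 2 * P * t) / (1 + t ^ 2),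
          α * ((x0 * (1 + t ^ 2) + P * (1 - t ^ 2) - 2 * Q * t) / (1 + t ^ 2)) +
          β * ((y0 * (1 + t ^ 2) + Q * (1 - t ^ 2) + 2 * P * t) / (1 + t ^ 2)) + γ) := by
      rintro ⟨x, y, z⟩ ⟨⟨hq1, hq2⟩, hq⟩
      simp only at hq1 hq2
      rcases hpar x y hq1 with ⟨h1, h2⟩ | ⟨t, h1, h2⟩
      · left
        rw [hq2, h1, h2]
      · right
        have hD : (0 : ℝ) < 1 + t ^ 2 := by positivity
        refine ⟨t, ?_, ?_⟩
        · have h3 := surf_eq hq
          simp only at h3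
          rw [← h1, ← h2]
          rw [hq2] at h3
          have h4 : x ^ 2 + y ^ 2 = 2 * x0 * x + 2 * y0 * y + (r ^ 2 - x0 ^ 2 - y0 ^ 2) := by
            linear_combination hq1
          rw [h4] at h3
          linear_combination (1 + t ^ 2) ^ 3 * h3
        · rw [← h1, ← h2, hq2]
          simp only [mul_div_assoc, div_self hD.ne', mul_one]
    have hinf1 : {t : ℝ | ((2 * x0 + 3 * (α - 1)) *
          (x0 * (1 + t ^ 2) + P * (1 - t ^ 2) - 2 * Q * t) +
        (2 * y0 + 3 * β) * (y0 * (1 + t ^ 2) + Q * (1 - t ^ 2) + 2 * P * t) +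
        (r ^ 2 - x0 ^ 2 - y0 ^ 2 + 3 * γ) * (1 + t ^ 2)) ^ 2 * (1 + t ^ 2) =
      16 * (x0 * (1 + t ^ 2) + P * (1 - t ^ 2) - 2 * Q * t) ^ 2 *
        ((α - 1) * (x0 * (1 + t ^ 2) + P * (1 - t ^ 2) - 2 * Q * t) +
        β * (y0 * (1 + t ^ 2) + Q * (1 - t ^ 2) + 2 * P * t) + γ * (1 + t ^ 2))}.Infinite := by
      intro hfin
      refine hinf (((hfin.image (fun t : ℝ =>
        ((x0 * (1 + t ^ 2) + P * (1 - t ^ 2) - 2 * Q * t) / (1 + t ^ 2),
          (y0 * (1 + t ^ 2) + Q * (1 - t ^ 2) + 2 * P * t) / (1 + t ^ 2),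
          α * ((x0 * (1 + t ^ 2) + P * (1 - t ^ 2) - 2 * Q * t) / (1 + t ^ 2)) +
          β * ((y0 * (1 + t ^ 2) + Q * (1 - t ^ 2) + 2 * P * t) / (1 + t ^ 2)) + γ))).union
        (finite_singleton (x0 - P, y0 - Q, α * (x0 - P) + β * (y0 - Q) + γ))).subset ?_)
      intro p hp
      rcases hcover p hp with h | ⟨t, ht, h⟩
      · right; exact h
      · left; exact ⟨t, ht, h.symm⟩
    obtain ⟨hα, hβ⟩ := Q197.OnlyTwo.ellipse_case1 hr hp1 hinf1
    have hγ : γ = u ^ 2 := by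
      rw [hα, hβ] at hp2
      linarith
    have hinf2 : {t : ℝ | (2 * x0 * (x0 * (1 + t ^ 2) + P * (1 - t ^ 2) - 2 * Q * t) +
        2 * y0 * (y0 * (1 + t ^ 2) + Q * (1 - t ^ 2) + 2 * P * t) +
        (r ^ 2 - x0 ^ 2 - y0 ^ 2 + 3 * u ^ 2) * (1 + t ^ 2)) ^ 2 =
      16 * (x0 * (1 + t ^ 2) + P * (1 - t ^ 2) - 2 * Q * t) ^ 2 * u ^ 2}.Infinite := by
      refine hinf1.mono ?_
      intro t ht
      simp only [mem_ofPred_eq] at ht ⊢
      rw [hα, hβ, hγ] at ht
      have hD : (0 : ℝ) < 1 + t ^ 2 := by positivity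
      refine mul_right_cancel₀ hD.ne' ?_
      linear_combination ht
    obtain ⟨h1, h2, h3⟩ := Q197.OnlyTwo.ellipse_case2 hr hp1 hinf2
    have hx0 : x0 = 2 * u := by
      rcases h1 with h | h
      · exact h
      · exfalso
        have h4 : (P : ℝ) ^ 2 ≤ u ^ 2 := by
          rw [← h3, ← hp1]
          nlinarith [sq_nonneg Q]
        have h5 : 2 * u < P := by
          rw [hP, h]
          have : 0 < u * (2 + Real.cos θ) := by positivity
          linarith
        nlinarith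
    rw [hS]
    ext p
    simp only [SB, mem_ofPred_eq]
    rw [hx0, h2, hα, hβ, hγ, h3]
    constructor
    · rintro ⟨h6, h7⟩
      exact ⟨by linarith, by linarith⟩
    · rintro ⟨h6, h7⟩
      exact ⟨by linarith, by linarith⟩

/-! ### The alternatives fail -/

lemma eqnA (u θ : ℝ) : IsEquation ![0, Real.sin θ, -(2 + Real.cos θ), 0] (topView (SA (u, θ))) := by
  have h0 : (2 + Real.cos θ) ≠ 0 := by linarith [Real.neg_one_le_cos θ]
  unfold IsEquation topView
  ext ⟨x, y⟩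
  simp only [mem_image, SA, mem_ofPred_eq]
  simp only [Matrix.cons_val_zero, Matrix.cons_val_one, Matrix.cons_val]
  constructor
  · rintro ⟨p, ⟨s, rfl⟩, hp⟩
    simp only [Prod.mk.injEq] at hp
    obtain ⟨rfl, rfl⟩ := hp
    ring
  · intro h
    refine ⟨_, ⟨x / (2 + Real.cos θ), rfl⟩, ?_⟩
    simp only [Prod.mk.injEq]
    constructor
    · field_simp
    · field_simp
      linarith

lemma eqnB (u θ : ℝ) : IsEquation ![1, -(4 * u), 0, 3 * u ^ 2] (topView (SB (u, θ))) := by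
  unfold IsEquation topView
  ext ⟨x, y⟩
  simp only [mem_image, SB, mem_ofPred_eq]
  simp only [Matrix.cons_val_zero, Matrix.cons_val_one, Matrix.cons_val]
  constructor
  · rintro ⟨p, ⟨h1, h2⟩, hp⟩
    simp only [Prod.mk.injEq] at hp
    obtain ⟨rfl, rfl⟩ := hp
    linear_combination h1
  · intro h
    refine ⟨(x, y, x + u ^ 2), ⟨?_, rfl⟩, rfl⟩
    simp only
    linear_combination h

lemma three {F G : Fin 4 → ℝ} {u v w : ℝ} (huv : u ≠ v) (huw : u ≠ w) (hvw : v ≠ w)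
    (hu : ![1, -(4 * u), 0, 3 * u ^ 2] ∈ Submodule.span ℝ {F, G})
    (hv : ![1, -(4 * v), 0, 3 * v ^ 2] ∈ Submodule.span ℝ {F, G})
    (hw : ![1, -(4 * w), 0, 3 * w ^ 2] ∈ Submodule.span ℝ {F, G}) : False := by
  rw [Submodule.mem_span_pair] at hu hv hw
  obtain ⟨a1, b1, h1⟩ := hu
  obtain ⟨a2, b2, h2⟩ := hv
  obtain ⟨a3, b3, h3⟩ := hw
  have e10 := congrFun h1 0
  have e11 := congrFun h1 1
  have e13 := congrFun h1 3
  have e20 := congrFun h2 0
  have e21 := congrFun h2 1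
  have e23 := congrFun h2 3
  have e30 := congrFun h3 0
  have e31 := congrFun h3 1
  have e33 := congrFun h3 3
  simp only [Pi.add_apply, Pi.smul_apply, smul_eq_mul, Matrix.cons_val_zero, Matrix.cons_val_one,
    Matrix.cons_val] at e10 e11 e13 e20 e21 e23 e30 e31 e33
  have hdet : (v - u) * (w - u) * (w - v) * 12 = 0 := by
    have : 1 * ((-(4 * v)) * (3 * w ^ 2) - (3 * v ^ 2) * (-(4 * w))) -
        (-(4 * u)) * (1 * (3 * w ^ 2) - (3 * v ^ 2) * 1) +
        (3 * u ^ 2) * (1 * (-(4 * w)) - (-(4 * v)) * 1) = 0 := by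
      have h10 : (1 : ℝ) * ((-(4 * v)) * (3 * w ^ 2) - (3 * v ^ 2) * (-(4 * w))) =
        (a1 * F 0 + b1 * G 0) * ((a2 * F 1 + b2 * G 1) * (a3 * F 3 + b3 * G 3) -
          (a2 * F 3 + b2 * G 3) * (a3 * F 1 + b3 * G 1)) := by
        rw [e10, e21, e33, e23, e31]
      have h20 : (-(4 * u)) * (1 * (3 * w ^ 2) - (3 * v ^ 2) * 1) =
        (a1 * F 1 + b1 * G 1) * ((a2 * F 0 + b2 * G 0) * (a3 * F 3 + b3 * G 3) -
          (a2 * F 3 + b2 * G 3) * (a3 * F 0 + b3 * G 0)) := by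
        rw [e11, e20, e33, e23, e30]
      have h30 : (3 * u ^ 2) * (1 * (-(4 * w)) - (-(4 * v)) * 1) =
        (a1 * F 3 + b1 * G 3) * ((a2 * F 0 + b2 * G 0) * (a3 * F 1 + b3 * G 1) -
          (a2 * F 1 + b2 * G 1) * (a3 * F 0 + b3 * G 0)) := by
        rw [e13, e20, e31, e21, e30]
      rw [h10, h20, h30]
      ring
    linear_combination (-1 : ℝ) * this
  have h4 : (v - u) ≠ 0 := sub_ne_zero.2 (Ne.symm huv)
  have h5 : (w - u) ≠ 0 := sub_ne_zero.2 (Ne.symm huw)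
  have h6 : (w - v) ≠ 0 := sub_ne_zero.2 (Ne.symm hvw)
  exact (mul_ne_zero (mul_ne_zero (mul_ne_zero h4 h5) h6) (by norm_num)) hdet

lemma zero_mem_Ioo : (0 : ℝ) ∈ Ioo (-(Real.pi / 2)) (Real.pi / 2) :=
  ⟨by linarith [Real.pi_pos], by linarith [Real.pi_pos]⟩

lemma not_condB : ¬ CondB UU SA SB := by
  rintro ⟨F₁, F₂, G₁, G₂, _, _, h⟩
  have hq : ∀ u : ℝ, 0 < u → ![1, -(4 * u), 0, 3 * u ^ 2] ∈ Submodule.span ℝ {F₁, F₂} ∨
      ![1, -(4 * u), 0, 3 * u ^ 2] ∈ Submodule.span ℝ {G₁, G₂} := by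
    intro u hu
    exact h (u, 0) ⟨hu, zero_mem_Ioo⟩ _ (Or.inr rfl) _ (eqnB u 0)
  have d12 : (1 : ℝ) ≠ 2 := by norm_num
  have d13 : (1 : ℝ) ≠ 3 := by norm_num
  have d14 : (1 : ℝ) ≠ 4 := by norm_num
  have d15 : (1 : ℝ) ≠ 5 := by norm_num
  have d23 : (2 : ℝ) ≠ 3 := by norm_num
  have d24 : (2 : ℝ) ≠ 4 := by norm_num
  have d25 : (2 : ℝ) ≠ 5 := by norm_num
  have d34 : (3 : ℝ) ≠ 4 := by norm_num
  have d35 : (3 : ℝ) ≠ 5 := by norm_num
  have d45 : (4 : ℝ) ≠ 5 := by norm_num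
  rcases hq 1 (by norm_num) with h1 | h1 <;> rcases hq 2 (by norm_num) with h2 | h2 <;>
    rcases hq 3 (by norm_num) with h3 | h3 <;> rcases hq 4 (by norm_num) with h4 | h4 <;>
    rcases hq 5 (by norm_num) with h5 | h5 <;>
    first
    | exact three d12 d13 d23 h1 h2 h3
    | exact three d12 d14 d24 h1 h2 h4
    | exact three d12 d15 d25 h1 h2 h5
    | exact three d13 d14 d34 h1 h3 h4
    | exact three d13 d15 d35 h1 h3 h5
    | exact three d14 d15 d45 h1 h4 h5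
    | exact three d23 d24 d34 h2 h3 h4
    | exact three d23 d25 d35 h2 h3 h5
    | exact three d24 d25 d45 h2 h4 h5
    | exact three d34 d35 d45 h3 h4 h5

lemma slopes_infinite : ((fun θ : ℝ => Real.sin θ / (2 + Real.cos θ)) ''
    Ioo (-(Real.pi / 2)) (Real.pi / 2)).Infinite := by
  have hpos : ∀ θ : ℝ, 0 < 2 + Real.cos θ := fun θ => by linarith [Real.neg_one_le_cos θ]
  have hcont : ContinuousOn (fun θ : ℝ => Real.sin θ / (2 + Real.cos θ)) (Icc 0 (Real.pi / 3)) :=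
    (Real.continuous_sin.div (continuous_const.add Real.continuous_cos)
      (fun θ => (hpos θ).ne')).continuousOn
  have hsub := intermediate_value_Icc (by linarith [Real.pi_pos]) hcont
  have hinf : (Icc (Real.sin 0 / (2 + Real.cos 0))
      (Real.sin (Real.pi / 3) / (2 + Real.cos (Real.pi / 3)))).Infinite := by
    refine Icc_infinite ?_
    rw [Real.sin_zero, zero_div]
    refine div_pos (Real.sin_pos_of_pos_of_lt_pi ?_ ?_) (hpos _)
    · linarith [Real.pi_pos]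
    · linarith [Real.pi_pos]
  refine hinf.mono (hsub.trans (image_mono ?_))
  intro θ hθ
  exact ⟨by linarith [Real.pi_pos, hθ.1], by linarith [Real.pi_pos, hθ.2]⟩

lemma not_condA : ¬ CondA UU SA SB := by
  rintro ⟨P, ⟨hP0, _⟩, h⟩
  set Pc : MvPolynomial (Fin 2) ℂ := MvPolynomial.map (algebraMap ℝ ℂ) P with hPc
  have hPc0 : Pc ≠ 0 := by
    intro h0
    refine hP0 (MvPolynomial.map_injective _ (algebraMap ℝ ℂ).injective ?_)
    rw [map_zero]; exact h0
  have hev : ∀ q : Fin 2 → ℂ, MvPolynomial.aeval q P = MvPolynomial.eval q Pc := by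
    intro q
    rw [hPc, MvPolynomial.eval_map, MvPolynomial.aeval_def]
  obtain ⟨E, hE, hmain⟩ := Q197.Tang.finite_tangent Pc hPc0
  -- the tangency condition for the line of slope `sin θ / (2 + cos θ)`
  have key : ∀ θ ∈ Ioo (-(Real.pi / 2)) (Real.pi / 2),
      ((Real.sin θ / (2 + Real.cos θ) : ℝ) : ℂ) ∉ E →
      (∃ R, VanishOn P R ∧ (MvPolynomial.eval 0 (MvPolynomial.pderiv 0 R) ≠ 0 ∨
        MvPolynomial.eval 0 (MvPolynomial.pderiv 1 R) ≠ 0)) ∧
      (∀ R, VanishOn P R → MvPolynomial.eval 0 (MvPolynomial.pderiv 0 R) +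
        ((Real.sin θ / (2 + Real.cos θ) : ℝ) : ℂ) *
          MvPolynomial.eval 0 (MvPolynomial.pderiv 1 R) = 0) := by
    intro θ hθ hm
    obtain ⟨p, _, ⟨hp1, hp2, ⟨R0, hR0, hR0'⟩, _, hp5⟩, _⟩ :=
      h (1, θ) ⟨mem_Ioi.2 one_pos, hθ⟩ _ (Or.inl rfl) _ (eqnA 1 θ)
    have hpos : (0 : ℝ) < 2 + Real.cos θ := by linarith [Real.neg_one_le_cos θ]
    have hposC : ((2 : ℂ) + (Real.cos θ : ℝ)) ≠ 0 := by
      have : ((2 + Real.cos θ : ℝ) : ℂ) ≠ 0 := by exact_mod_cast hpos.ne'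
      push_cast at this ⊢
      exact this
    have hcast : ((Real.sin θ / (2 + Real.cos θ) : ℝ) : ℂ) =
        ((Real.sin θ : ℝ) : ℂ) / ((2 : ℂ) + (Real.cos θ : ℝ)) := by push_cast; rfl
    set m : ℂ := ((Real.sin θ / (2 + Real.cos θ) : ℝ) : ℂ) with hmdef
    have hmm : m * ((2 : ℂ) + (Real.cos θ : ℝ)) = ((Real.sin θ : ℝ) : ℂ) := by
      rw [hcast]; field_simp
    simp only [complexPts, mem_ofPred_eq, Matrix.cons_val_zero, Matrix.cons_val_one,
      Matrix.cons_val] at hp1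
    simp only [Matrix.cons_val_zero, Matrix.cons_val_one, Matrix.cons_val] at hp5
    have hline : p 1 = m * p 0 := by
      have : ((2 : ℂ) + (Real.cos θ : ℝ)) * p 1 = ((2 : ℂ) + (Real.cos θ : ℝ)) * (m * p 0) := by
        have h6 : ((2 : ℂ) + (Real.cos θ : ℝ)) * (m * p 0) = ((Real.sin θ : ℝ) : ℂ) * p 0 := by
          rw [← hmm]; ring
        rw [h6]
        push_cast at hp1 ⊢
        linear_combination -hp1
      exact mul_left_cancel₀ hposC this
    have hpv : p = ![p 0, m * p 0] := by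
      ext i
      fin_cases i
      · rfl
      · simpa using hline
    have htan : ∀ R, VanishOn P R → MvPolynomial.eval p (MvPolynomial.pderiv 0 R) +
        m * MvPolynomial.eval p (MvPolynomial.pderiv 1 R) = 0 := by
      intro R hR
      have h7 := hp5 R hR
      have : ((2 : ℂ) + (Real.cos θ : ℝ)) * (MvPolynomial.eval p (MvPolynomial.pderiv 0 R) +
        m * MvPolynomial.eval p (MvPolynomial.pderiv 1 R)) = 0 := by
        have h8 : ((2 : ℂ) + (Real.cos θ : ℝ)) * (MvPolynomial.eval p (MvPolynomial.pderiv 0 R) +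
          m * MvPolynomial.eval p (MvPolynomial.pderiv 1 R)) =
          ((2 : ℂ) + (Real.cos θ : ℝ)) * MvPolynomial.eval p (MvPolynomial.pderiv 0 R) +
            ((Real.sin θ : ℝ) : ℂ) * MvPolynomial.eval p (MvPolynomial.pderiv 1 R) := by
          rw [← hmm]; ring
        rw [h8]
        push_cast at h7 ⊢
        linear_combination -h7
      rcases mul_eq_zero.1 this with h9 | h9
      · exact absurd h9 hposC
      · exact h9
    have hp0 : p 0 = 0 := by
      by_contra hne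
      have h10 := hmain m hm (p 0) hne (by rw [← hpv, ← hev]; exact hp2) R0
        (fun q hq => hR0 q (by show MvPolynomial.aeval q P = 0; rw [hev]; exact hq))
        (by rw [← hpv]; exact htan R0 hR0)
      rw [← hpv] at h10
      rcases hR0' with h11 | h11
      · exact h11 h10.1
      · exact h11 h10.2
    have hpz : p = 0 := by
      rw [hpv, hp0, mul_zero]
      ext i
      fin_cases i <;> rfl
    rw [hpz] at hR0' htan
    exact ⟨⟨R0, hR0, hR0'⟩, htan⟩
  -- two different good slopes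
  have hinf := slopes_infinite
  have hinf2 : ((fun m : ℝ => (m : ℂ)) '' ((fun θ : ℝ => Real.sin θ / (2 + Real.cos θ)) ''
    Ioo (-(Real.pi / 2)) (Real.pi / 2)) \ E).Infinite :=
    (hinf.image (Complex.ofReal_injective.injOn)).sdiff hE
  obtain ⟨m1, ⟨⟨_, ⟨θ1, hθ1, rfl⟩, rfl⟩, hm1⟩, m2, ⟨⟨_, ⟨θ2, hθ2, rfl⟩, rfl⟩, hm2⟩, hne⟩ :=
    hinf2.nontrivial
  obtain ⟨⟨R, hR, hRne⟩, ht1⟩ := key θ1 hθ1 hm1
  obtain ⟨_, ht2⟩ := key θ2 hθ2 hm2
  have e1 := ht1 R hR
  have e2 := ht2 R hR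
  have hy : MvPolynomial.eval 0 (MvPolynomial.pderiv 1 R) = 0 := by
    have : (((Real.sin θ1 / (2 + Real.cos θ1) : ℝ) : ℂ) -
        ((Real.sin θ2 / (2 + Real.cos θ2) : ℝ) : ℂ)) *
        MvPolynomial.eval 0 (MvPolynomial.pderiv 1 R) = 0 := by
      linear_combination e1 - e2
    rcases mul_eq_zero.1 this with h3 | h3
    · exact absurd (sub_eq_zero.1 h3) hne
    · exact h3
  rw [hy, mul_zero, add_zero] at e1
  rcases hRne with h4 | h4
  · exact h4 e1
  · exact h4 hy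

/-- **Disproof of Q1.** There are an analytic surface `Φ '' U` and isotropic circles `S₁ q`,
`S₂ q` through its points `Φ q` which satisfy hypothesis (H), such that the surface contains
no further isotropic circular arc, while neither alternative (a) nor alternative (b) holds. -/
theorem result : ∃ (U : Set (ℝ × ℝ)) (Φ : ℝ × ℝ → ℝ × ℝ × ℝ) (S₁ S₂ : ℝ × ℝ → Set (ℝ × ℝ × ℝ)),
    HypH U Φ S₁ S₂ ∧ OnlyTwo U Φ S₁ S₂ ∧ ¬ CondA U S₁ S₂ ∧ ¬ CondB U S₁ S₂ :=
  ⟨UU, Ph, SA, SB, hypH, onlyTwo, not_condA, not_condB⟩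

end Pool.Agent.Results.MP_c33e78_gt.ConeSurface
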